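import Mathlib
import Pool.Agent.N650.M.MR1

/-! Two point correlations with arbitrary weights, for functions with small exponential sums
(adapted from helper650's file for the Liouville function). -/

namespace Pool.Agent.N675.M

open Finset
open Pool.Agent.H373R2.T7 (exI energy)
open Pool.Agent.TH823.MRS (ExpoSmall)
open Pool.Agent.N650.M (energy_b sum_cast one_term)

lemma main_signG (ll : ℕ → ℂ) (ll_norm : ∀ n, ‖ll n‖ ≤ 1) (hE : ExpoSmall ll) (a b : ℤ) (ha : a ≠ 0) (hb : b ≠ 0) (R C : ℕ) (ε : ℝ) (hε : 0 < ε) :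
    ∃ K : ℕ, ∀ U x : ℕ, K ≤ U → K ≤ x → U ≤ R * x → ∀ c : ℤ, |c| ≤ C * x →
      ∀ θ : ℤ → ℂ, (∀ n, ‖θ n‖ ≤ 1) →
      ∑ u ∈ Icc 1 U, ‖∑ n ∈ Icc (1 : ℤ) x, θ n * exI ll (a * n + b * (u : ℤ) + c)‖ ≤
        ε * (U * x) := by
  set D : ℕ := a.natAbs + C + b.natAbs * R + 1 with hD
  have hD0 : (0 : ℝ) < D := by
    have : 0 < D := by omega
    exact_mod_cast this
  obtain ⟨H₀, N₀, h⟩ := Pool.Agent.TH823.MRS.l1_short ll ll_norm
    hE 1 (b.natAbs : ℝ) (Nat.cast_nonneg _) (ε / D) (by positivity)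
  refine ⟨H₀ + N₀ + 1, fun U x hU hx hUx c hc θ hθ => ?_⟩
  have hbpos : 1 ≤ b.natAbs := Int.natAbs_pos.mpr hb
  have hN1 : N₀ ≤ D * x := by
    have : 1 * x ≤ D * x := Nat.mul_le_mul_right _ (by omega)
    omega
  have hH1 : H₀ ≤ b.natAbs * U := by
    have : 1 * U ≤ b.natAbs * U := Nat.mul_le_mul_right _ hbpos
    omega
  have hH2 : b.natAbs * U ≤ D * x := by
    calc b.natAbs * U ≤ b.natAbs * (R * x) := Nat.mul_le_mul_left _ hUx
      _ = (b.natAbs * R) * x := by ring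
      _ ≤ D * x := Nat.mul_le_mul_right _ (by omega)
  have h1 := h (D * x) hN1 (b.natAbs * U) hH1 hH2 U (fun m => b * (m : ℤ)) (by
      intro m hm
      rw [mem_Icc] at hm
      rw [abs_mul, Nat.abs_cast]
      push_cast
      have : (m : ℤ) ≤ U := by exact_mod_cast hm.2
      exact mul_le_mul_of_nonneg_left this (abs_nonneg _)) (by
      have h2 : ((energy 1 U (fun m => b * (m : ℤ)) : ℕ) : ℝ) ≤ U := by
        exact_mod_cast energy_b U b hb
      rw [Nat.cast_mul]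
      have h3 : (0 : ℝ) ≤ (b.natAbs : ℝ) * U := by positivity
      calc _ ≤ (U : ℝ) * ((b.natAbs : ℝ) * U) := mul_le_mul_of_nonneg_right h2 h3
        _ = (b.natAbs : ℝ) * (U : ℝ) ^ (2 * 1) := by ring)
    (fun k => ∑ n ∈ Icc (1 : ℤ) x, (if a * n + c = k then θ n else 0))
    (fun k => one_term a c k ha x θ hθ)
  have h2 : ∀ u ∈ Icc 1 U,
      ‖∑ n ∈ Icc (1 : ℤ) x, θ n * exI ll (a * n + b * (u : ℤ) + c)‖ =
      ‖∑ k ∈ Ioc (-((b.natAbs * U : ℕ) : ℤ)) ((D * x : ℕ) : ℤ),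
        (∑ n ∈ Icc (1 : ℤ) x, (if a * n + c = k then θ n else 0)) *
          exI ll (k + b * (u : ℤ))‖ := by
    intro u hu
    rw [mem_Icc] at hu
    congr 1
    simp only [Finset.sum_mul]
    rw [Finset.sum_comm]
    refine Finset.sum_congr rfl fun n hn => ?_
    rw [mem_Icc] at hn
    have hs : ∀ k ∈ Ioc (-((b.natAbs * U : ℕ) : ℤ)) ((D * x : ℕ) : ℤ),
        (if a * n + c = k then θ n else 0) * exI ll (k + b * (u : ℤ)) =
        if a * n + c = k then θ n * exI ll (a * n + b * (u : ℤ) + c) else 0 := by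
      intro k _
      split_ifs with h3
      · rw [← h3]; congr 2; ring
      · rw [zero_mul]
    rw [Finset.sum_congr rfl hs, Finset.sum_ite_eq]
    split_ifs with h3
    · rfl
    · rw [mem_Ioc] at h3
      have hbu : b * (u : ℤ) ≤ ((b.natAbs * U : ℕ) : ℤ) := by
        push_cast
        calc b * (u : ℤ) ≤ |b| * u := mul_le_mul_of_nonneg_right (le_abs_self b) (by positivity)
          _ ≤ |b| * U := mul_le_mul_of_nonneg_left (by exact_mod_cast hu.2) (abs_nonneg _)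
      have han : a * n + c ≤ ((D * x : ℕ) : ℤ) := by
        have e1 : a * n ≤ |a| * x := by
          calc a * n ≤ |a| * n := mul_le_mul_of_nonneg_right (le_abs_self a) (by omega)
            _ ≤ |a| * x := mul_le_mul_of_nonneg_left hn.2 (abs_nonneg _)
        have e2 : c ≤ C * x := (le_abs_self c).trans hc
        have e3 : (0 : ℤ) ≤ (|b| * R + 1) * x := by positivity
        rw [hD]
        push_cast
        nlinarith
      have h4 : a * n + c ≤ -((b.natAbs * U : ℕ) : ℤ) := by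
        by_contra h5
        exact h3 ⟨by omega, han⟩
      have h5 : ¬ (1 : ℤ) ≤ a * n + b * (u : ℤ) + c := by omega
      unfold exI
      rw [if_neg h5, mul_zero]
  rw [Finset.sum_congr rfl h2]
  refine h1.trans (le_of_eq ?_)
  push_cast
  field_simp

lemma split_abs (h : ℕ → ℂ) (k : ℤ) : h k.natAbs =
    exI h k + exI h (-k) + (if k = 0 then h 0 else 0) := by
  unfold exI
  rcases lt_trichotomy k 0 with h1 | h1 | h1
  · rw [if_neg (by omega), if_pos (by omega), if_neg (by omega)]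
    have : (-k).toNat = k.natAbs := by omega
    rw [this]
    ring
  · subst h1
    simp
  · rw [if_pos (by omega), if_neg (by omega), if_neg (by omega)]
    have : k.toNat = k.natAbs := by omega
    rw [this]
    ring

/-- averaged two point correlations with arbitrary weights -/
theorem mrp_of_expo (ll : ℕ → ℂ) (ll_norm : ∀ n, ‖ll n‖ ≤ 1) (hE : ExpoSmall ll) :
    MRP (fun m => ll m.natAbs) := by
  intro a b ha hb R C ε hε
  obtain ⟨K1, h1⟩ := main_signG ll ll_norm hE a b ha hb R C (ε / 3) (by positivity)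
  obtain ⟨K2, h2⟩ := main_signG ll ll_norm hE (-a) (-b) (neg_ne_zero.mpr ha) (neg_ne_zero.mpr hb) R C (ε / 3)
    (by positivity)
  obtain ⟨K3, hK3⟩ := exists_nat_ge (3 / ε)
  refine ⟨K1 + K2 + K3 + 1, fun U x hU hx hUx c hc θ hθ => ?_⟩
  have hU0 : (0 : ℝ) < U := by exact_mod_cast (by omega : 0 < U)
  have hx0 : (0 : ℝ) < x := by exact_mod_cast (by omega : 0 < x)
  have e1 := h1 U x (by omega) (by omega) hUx c hc θ hθ
  have e2 := h2 U x (by omega) (by omega) hUx (-c) (by rwa [abs_neg]) θ hθ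
  have e3 : ∑ u ∈ Icc 1 U, ‖∑ n ∈ Icc (1 : ℤ) x,
      (if a * n + (b * (u : ℤ) + c) = 0 then θ n * ll 0 else 0)‖ ≤ U := by
    calc ∑ u ∈ Icc 1 U, ‖∑ n ∈ Icc (1 : ℤ) x,
          (if a * n + (b * (u : ℤ) + c) = 0 then θ n * ll 0 else 0)‖
        ≤ ∑ u ∈ Icc 1 U, (1 : ℝ) := sum_le_sum fun u _ =>
          one_term a _ 0 ha x (fun n => θ n * ll 0) fun n => by
            rw [norm_mul]
            exact mul_le_one₀ (hθ n) (norm_nonneg _) (ll_norm 0)
      _ = U := by simp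
  unfold Pool.Agent.N781.A.avr Pool.Agent.N781.A.av
  rw [div_le_iff₀ hU0, sum_cast]
  have e4 : ∀ m ∈ Icc 1 U,
      ‖(∑ n ∈ Icc (1 : ℤ) x, θ n * ll (a * n + b * (m : ℤ) + c).natAbs) / (x : ℂ)‖ ≤
      (‖∑ n ∈ Icc (1 : ℤ) x, θ n * exI ll (a * n + b * (m : ℤ) + c)‖ +
        ‖∑ n ∈ Icc (1 : ℤ) x, θ n * exI ll (-a * n + -b * (m : ℤ) + -c)‖ +
        ‖∑ n ∈ Icc (1 : ℤ) x, (if a * n + (b * (m : ℤ) + c) = 0 then θ n * ll 0 else 0)‖) / x := by
    intro m _
    rw [norm_div, Complex.norm_natCast]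
    refine div_le_div_of_nonneg_right ?_ hx0.le
    refine le_trans (le_of_eq ?_) (norm_add₃_le)
    congr 1
    rw [← sum_add_distrib, ← sum_add_distrib]
    refine sum_congr rfl fun n _ => ?_
    rw [split_abs ll, mul_add, mul_add]
    congr 2
    · congr 2
      ring
    · rw [mul_ite, mul_zero, add_assoc]
  refine (sum_le_sum e4).trans ?_
  rw [← sum_div, sum_add_distrib, sum_add_distrib, div_le_iff₀ hx0]
  have h6 : (U : ℝ) ≤ ε / 3 * (U * x) := by
    have h7 : 3 / ε ≤ x := hK3.trans (by exact_mod_cast (by omega : K3 ≤ x))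
    rw [div_le_iff₀ hε] at h7
    nlinarith
  calc _ ≤ ε / 3 * (U * x) + ε / 3 * (U * x) + ε / 3 * (U * x) :=
        add_le_add (add_le_add e1 e2) (e3.trans h6)
    _ = ε * U * x := by ring

end Pool.Agent.N675.M
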