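import Mathlib
import Pool.Agent.N675.M.Stm6

/-! From completely multiplicative to multiplicative functions. -/

namespace Pool.Agent.N675.M

open Finset Pool.Agent.N675 Pool.Agent.N781.A Pool.Agent.N781.FV

/-- the averaged two point property passes from a completely multiplicative unimodular function to
the multiplicative functions with the same values at the primes -/
def S_MUL : Prop :=
  ∀ f' f : ℕ → ℂ, (∀ n, 0 < n → ‖f' n‖ = 1) → (∀ m n, 0 < m → 0 < n → f' (m * n) = f' m * f' n) →
    (∀ n, ‖f n‖ ≤ 1) → (∀ m n, Nat.Coprime m n → f (m * n) = f m * f n) →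
    (∀ p : ℕ, p.Prime → f p = f' p) →
    MRP (fun m => f' m.natAbs) → MRP (fun m => f m.natAbs)

end Pool.Agent.N675.M
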