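import Mathlib
import Pool.Agent.N675.M.CluG
import Pool.Agent.N675.M.MRG
import Pool.Agent.N675.M.Stm7
import Pool.Agent.R512.G.Expo

/-! Aperiodic multiplicative functions with values `1` and `-1` have the cluster property. -/

namespace Pool.Agent.N675.M

open Finset Pool.Agent.N675 Pool.Agent.N781.A Pool.Agent.N781.FV
open Pool.Agent.Y872.L (CM NonPret Pr)

/-- aperiodic: infinite distance to all Dirichlet characters -/
def Aper (f : ℕ → ℝ) : Prop :=
  ∀ (q : ℕ) (χ : DirichletCharacter ℂ q), 1 ≤ q →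
    ¬ Summable fun p : Nat.Primes =>
      (1 - (((f p : ℝ) : ℂ) * (starRingEnd ℂ) (χ ((p : ℕ) : ZMod q))).re) / ((p : ℕ) : ℝ)

/-- the completely multiplicative function with the same values at the primes -/
noncomputable def cmp (f : ℕ → ℝ) (n : ℕ) : ℤ :=
  if n = 0 then 0 else n.factorization.prod fun p k => (if f p = 1 then 1 else -1) ^ k

lemma cmp_cm (f : ℕ → ℝ) : CM (cmp f) := by
  refine ⟨by simp [cmp], by simp [cmp], fun m n => ?_, fun n hn => ?_⟩
  · rcases Nat.eq_zero_or_pos m with hm | hm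
    · subst hm; simp [cmp]
    rcases Nat.eq_zero_or_pos n with hn | hn
    · subst hn; simp [cmp]
    unfold cmp
    rw [if_neg hm.ne', if_neg hn.ne', if_neg (Nat.mul_pos hm hn).ne',
      Nat.factorization_mul hm.ne' hn.ne']
    exact Finsupp.prod_add_index' (fun _ => pow_zero _) fun _ _ _ => pow_add _ _ _
  · unfold cmp
    rw [if_neg hn.ne']
    unfold Finsupp.prod
    refine Finset.prod_induction _ (fun z : ℤ => z = 1 ∨ z = -1) ?_ (Or.inl rfl) ?_
    · rintro a b (rfl | rfl) (rfl | rfl) <;> simp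
    · intro p _
      by_cases h : f p = 1
      · left; simp [h]
      · simp only [h, if_false]
        exact neg_one_pow_eq_or ℤ _

lemma cmp_prime (f : ℕ → ℝ) (hf : ∀ n, f n = 1 ∨ f n = -1) {p : ℕ} (hp : p.Prime) :
    ((cmp f p : ℤ) : ℝ) = f p := by
  unfold cmp
  rw [if_neg hp.ne_zero, hp.factorization, Finsupp.prod_single_index (by simp), pow_one]
  rcases hf p with h | h
  · rw [if_pos h, h]; norm_num
  · rw [if_neg (by rw [h]; norm_num), h]; norm_num

lemma cmp_nonPret (f : ℕ → ℝ) (hf : ∀ n, f n = 1 ∨ f n = -1) (ha : Aper f) :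
    NonPret (cmp f) := by
  classical
  intro Q hQ χ _ hPr
  refine ha Q χ hQ ?_
  unfold Pr at hPr
  have h1 : Summable fun p : Nat.Primes => (2 : ℝ) * (if (p : ℕ).Prime ∧
      ((cmp f p : ℤ) : ℂ) ≠ χ ((p : ℕ) : ZMod Q) then 1 / ((p : ℕ) : ℝ) else 0) :=
    (hPr.comp_injective Subtype.val_injective).mul_left 2
  refine Summable.of_nonneg_of_le (fun p => ?_) (fun p => ?_) h1
  · refine div_nonneg ?_ (Nat.cast_nonneg _)
    have h2 : ‖((f p : ℝ) : ℂ) * (starRingEnd ℂ) (χ ((p : ℕ) : ZMod Q))‖ ≤ 1 := by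
      rw [norm_mul, RCLike.norm_conj]
      refine mul_le_one₀ ?_ (norm_nonneg _) (DirichletCharacter.norm_le_one χ _)
      rcases hf p with h | h <;> rw [h] <;> simp
    have h3 := (abs_le.mp (Complex.abs_re_le_norm
      (((f p : ℝ) : ℂ) * (starRingEnd ℂ) (χ ((p : ℕ) : ZMod Q))))).2
    linarith
  · have hp0 : (0 : ℝ) < ((p : ℕ) : ℝ) := by exact_mod_cast p.2.pos
    have hfp : (((cmp f p : ℤ) : ℝ) : ℂ) = ((f p : ℝ) : ℂ) := by rw [cmp_prime f hf p.2]
    have hfp' : ((cmp f p : ℤ) : ℂ) = ((f p : ℝ) : ℂ) := by rw [← hfp]; push_cast; rfl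
    split_ifs with h
    · rw [mul_one_div]
      refine div_le_div_of_nonneg_right ?_ hp0.le
      have h2 : ‖((f p : ℝ) : ℂ) * (starRingEnd ℂ) (χ ((p : ℕ) : ZMod Q))‖ ≤ 1 := by
        rw [norm_mul, RCLike.norm_conj]
        refine mul_le_one₀ ?_ (norm_nonneg _) (DirichletCharacter.norm_le_one χ _)
        rcases hf p with h | h <;> rw [h] <;> simp
      have h3 := (abs_le.mp (Complex.abs_re_le_norm
        (((f p : ℝ) : ℂ) * (starRingEnd ℂ) (χ ((p : ℕ) : ZMod Q))))).1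
      linarith
    · have h2 : ((cmp f p : ℤ) : ℂ) = χ ((p : ℕ) : ZMod Q) := by
        by_contra h3
        exact h ⟨p.2, h3⟩
      rw [hfp'] at h2
      rw [← h2]
      have h3 : (((f p : ℝ) : ℂ) * (starRingEnd ℂ) ((f p : ℝ) : ℂ)).re = 1 := by
        rcases hf p with h4 | h4 <;> rw [h4] <;> simp
      rw [h3]
      simp

lemma unbdd (P : ℕ → Prop) (a : ℕ → ℝ) (ha : ∀ p, P p → 0 ≤ a p)
    (h : ¬ Summable fun p : {p : ℕ // P p} => a p) (M : ℝ) :
    ∃ T : ℕ, ∀ S : Finset ℕ, (∀ p, P p → p ≤ T → p ∈ S) → (∀ p ∈ S, P p) →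
      M < ∑ p ∈ S, a p := by
  by_contra hcon
  push Not at hcon
  apply h
  refine summable_of_sum_le (c := M) (fun p => ha p p.2) fun u => ?_
  obtain ⟨S, hS1, hS2, hS3⟩ := hcon (u.sup (fun p => (p : ℕ)))
  refine le_trans ?_ hS3
  have h1 : ∑ p ∈ u, a p = ∑ p ∈ u.map (Function.Embedding.subtype P), a p := by
    rw [Finset.sum_map]
    rfl
  rw [h1]
  refine Finset.sum_le_sum_of_subset_of_nonneg ?_ fun p hp _ => ha p (hS2 p hp)
  intro p hp
  rw [Finset.mem_map] at hp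
  obtain ⟨⟨x, hx⟩, hxu, rfl⟩ := hp
  exact hS1 x hx (Finset.le_sup (f := fun p : {p : ℕ // P p} => (p : ℕ)) hxu)

lemma aper_hdiv (f : ℕ → ℝ) (hf : ∀ n, f n = 1 ∨ f n = -1) (ha : Aper f) :
    Hdiv (fun p => ((f p : ℝ) : ℂ)) := by
  have hn : ∀ n, ‖((f n : ℝ) : ℂ)‖ ≤ 1 := by
    intro n
    rcases hf n with h | h <;> rw [h] <;> simp
  refine hdiv_of _ hn (Or.inr ⟨?_, fun q χ hq M => ?_⟩)
  · refine Set.Finite.subset (s := {1, -1}) (by simp) ?_
    rintro _ ⟨p, rfl⟩
    rcases hf p with h | h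
    · left; simp [h]
    · right; simp [h]
  · obtain ⟨T, hT⟩ := unbdd (fun p => p.Prime)
      (fun p => (1 - (((f p : ℝ) : ℂ) * (starRingEnd ℂ) (χ ((p : ℕ) : ZMod q))).re) / (p : ℝ))
      (fun p _ => by
        refine div_nonneg ?_ (Nat.cast_nonneg _)
        have h1 : ‖((f p : ℝ) : ℂ) * (starRingEnd ℂ) (χ ((p : ℕ) : ZMod q))‖ ≤ 1 := by
          rw [norm_mul, RCLike.norm_conj]
          exact mul_le_one₀ (hn p) (norm_nonneg _) (DirichletCharacter.norm_le_one χ _)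
        have h2 := (abs_le.mp (Complex.abs_re_le_norm
          (((f p : ℝ) : ℂ) * (starRingEnd ℂ) (χ ((p : ℕ) : ZMod q))))).2
        linarith) (ha q χ hq) M
    refine ⟨T, hT _ (fun p hp hpT => ?_) (fun p hp => (Finset.mem_filter.mp hp).2)⟩
    exact Finset.mem_filter.mpr ⟨Finset.mem_Icc.mpr ⟨hp.one_lt.le, hpT⟩, hp⟩

/-- aperiodic multiplicative functions with values `1` and `-1` have the cluster property -/
theorem aper_sg (hMUL : S_MUL) (f : ℕ → ℝ) (hf : ∀ n, f n = 1 ∨ f n = -1)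
    (hmul : ∀ m n : ℕ, Nat.Coprime m n → f (m * n) = f m * f n) (ha : Aper f) :
    SG (fun m => f m.natAbs) := by
  have hn : ∀ n, ‖((f n : ℝ) : ℂ)‖ ≤ 1 := by
    intro n
    rcases hf n with h | h <;> rw [h] <;> simp
  have hcm := cmp_cm f
  have hE := Pool.Agent.R512.G.expoS hcm (cmp_nonPret f hf ha)
  have hb : ∀ n, ‖((cmp f n : ℤ) : ℂ)‖ ≤ 1 := by
    intro n
    rcases Nat.eq_zero_or_pos n with h | h
    · subst h; rw [hcm.zero]; simp
    · rcases hcm.val n h with h1 | h1 <;> rw [h1] <;> simp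
  have hMR' := mrp_of_expo (fun n => ((cmp f n : ℤ) : ℂ)) hb hE
  have hMR : MRP (fun m => ((f m.natAbs : ℝ) : ℂ)) := by
    refine hMUL (fun n => ((cmp f n : ℤ) : ℂ)) (fun n => ((f n : ℝ) : ℂ)) ?_ ?_ hn ?_ ?_ hMR'
    · intro n h
      rcases hcm.val n h with h1 | h1 <;> rw [h1] <;> simp
    · intro m n _ _
      rw [hcm.mul]
      push_cast
      ring
    · intro m n h
      rw [hmul m n h]
      push_cast
      ring
    · intro p hp
      have := cmp_prime f hf hp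
      rw [← this]
      push_cast
      rfl
  refine sg_of (fun m => f m.natAbs) f (fun m => hf _) hf ?_ (aper_hdiv f hf ha) hMR
  intro p hp m hm
  rw [Int.natAbs_mul, Int.natAbs_natCast]
  refine hmul _ _ ((Nat.Prime.coprime_iff_not_dvd hp).mpr fun h => hm ?_)
  exact Int.natCast_dvd.mpr h

end Pool.Agent.N675.M
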